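import Mathlib

set_option autoImplicit false

/-!
A packed evaluation of the agreement counts of all sign vectors with the rows of a sign matrix.
-/

namespace Pool.Agent.H161R7.DiscCore

/-- little-endian packing in base 64 -/
def pack : ℕ → (ℕ → ℕ) → ℕ
  | 0, _ => 0
  | n + 1, f => f 0 + 64 * pack n (fun i => f (i + 1))

lemma pack_add (n : ℕ) : ∀ f g : ℕ → ℕ, pack n (fun i => f i + g i) = pack n f + pack n g := by
  induction n with
  | zero => intro f g; rfl
  | succ n ih =>
    intro f g
    simp only [pack]
    rw [ih (fun i => f (i + 1)) (fun i => g (i + 1))]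
    ring

lemma pack_zero (n : ℕ) : pack n (fun _ => 0) = 0 := by
  induction n with
  | zero => rfl
  | succ n ih => simp only [pack, ih]

lemma testBit_pack (n : ℕ) : ∀ (f : ℕ → ℕ) (i p : ℕ), (∀ i, f i < 64) → p < 6 → i < n →
    (pack n f).testBit (6 * i + p) = (f i).testBit p := by
  induction n with
  | zero => intro f i p _ _ hi; omega
  | succ n ih =>
    intro f i p hf hp hi
    have h64 : f 0 + 64 * pack n (fun i => f (i + 1)) = 2 ^ 6 * pack n (fun i => f (i + 1)) + f 0 := by
      norm_num; ring
    simp only [pack]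
    rw [h64, Nat.testBit_two_pow_mul_add _ (hf 0)]
    rcases i with _ | i
    · rw [if_pos (by omega)]
      congr 1
      omega
    · rw [if_neg (by omega)]
      have := ih (fun i => f (i + 1)) i p (fun i => hf _) hp (by omega)
      rw [← this]
      congr 1
      omega

lemma mask_bits (n : ℕ) : ∀ p : ℕ, (pack n (fun _ => 32)).testBit p = true → ∃ i < n, p = 6 * i + 5 := by
  induction n with
  | zero => intro p h; simp [pack] at h
  | succ n ih =>
    intro p h
    have h64 : 32 + 64 * pack n (fun _ => 32) = 2 ^ 6 * pack n (fun _ => 32) + 32 := by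
      norm_num; ring
    simp only [pack] at h
    rw [h64, Nat.testBit_two_pow_mul_add _ (by norm_num)] at h
    by_cases hp : p < 6
    · rw [if_pos hp] at h
      have h5 : p = 5 := by
        interval_cases p <;> first | rfl | (exfalso; revert h; decide)
      exact ⟨0, by omega, by omega⟩
    · rw [if_neg hp] at h
      obtain ⟨i, hi, h'⟩ := ih (p - 6) h
      exact ⟨i + 1, by omega, by omega⟩

/-- the test at a leaf -/
def leaf (K1 K2 M : ℕ) (acc : ℕ) : Bool :=
  !(Nat.beq (Nat.land (Nat.lor (Nat.add acc K1) (Nat.sub K2 acc)) M) 0)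

/-- the search through all sign vectors -/
def go (K1 K2 M : ℕ) (cs : List (ℕ × ℕ)) : ℕ → Bool :=
  List.rec (fun acc => leaf K1 K2 M acc)
    (fun c _ ih acc => (ih (Nat.add acc c.1)) && (ih (Nat.add acc c.2))) cs

lemma leaf_spec (n hi lo : ℕ) (h1 : hi ≤ 32) (h2 : lo < 32) (a : ℕ → ℕ) (ha : ∀ i, a i ≤ n)
    (hn : n + 32 - hi < 64) (hn' : n ≤ 32 + lo)
    (h : leaf (pack n (fun _ => 32 - hi)) (pack n (fun _ => 32 + lo)) (pack n (fun _ => 32))
      (pack n a) = true) : ∃ i < n, hi ≤ a i ∨ a i ≤ lo := by
  unfold leaf at h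
  have hne : Nat.land (Nat.lor (Nat.add (pack n a) (pack n (fun _ => 32 - hi)))
      (Nat.sub (pack n (fun _ => 32 + lo)) (pack n a))) (pack n (fun _ => 32)) ≠ 0 := by
    intro h0
    rw [h0] at h
    revert h
    decide
  have hA : Nat.add (pack n a) (pack n (fun _ => 32 - hi)) = pack n (fun i => a i + (32 - hi)) := by
    rw [pack_add]; rfl
  have hB : Nat.sub (pack n (fun _ => 32 + lo)) (pack n a) = pack n (fun i => 32 + lo - a i) := by
    have : pack n (fun _ => 32 + lo) = pack n (fun i => 32 + lo - a i) + pack n a := by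
      rw [← pack_add]
      congr 1
      funext i
      have := ha i
      omega
    show pack n (fun _ => 32 + lo) - pack n a = _
    omega
  rw [hA, hB] at hne
  obtain ⟨p, hp⟩ := Nat.exists_testBit_of_ne_zero hne
  have hp' : ((pack n (fun i => a i + (32 - hi)) ||| pack n (fun i => 32 + lo - a i)) &&&
      pack n (fun _ => 32)).testBit p = true := hp
  rw [Nat.testBit_and, Nat.testBit_or, Bool.and_eq_true, Bool.or_eq_true] at hp'
  obtain ⟨hp1, hp2⟩ := hp'
  obtain ⟨i, hi', rfl⟩ := mask_bits n p hp2
  refine ⟨i, hi', ?_⟩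
  rcases hp1 with hp1 | hp1
  · left
    rw [testBit_pack n _ i 5 (fun i => by have := ha i; omega) (by norm_num) hi'] at hp1
    have := Nat.ge_two_pow_of_testBit hp1
    have := ha i
    omega
  · right
    rw [testBit_pack n _ i 5 (fun i => by omega) (by norm_num) hi'] at hp1
    have := Nat.ge_two_pow_of_testBit hp1
    omega

/-- the columns of the table `c`, packed -/
def colsOf (n : ℕ) (c : ℕ → ℕ → Bool) (L : List ℕ) : List (ℕ × ℕ) :=
  L.map (fun j => (pack n (fun i => (c i j).toNat), pack n (fun i => (!(c i j)).toNat)))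

lemma go_spec (n : ℕ) (c : ℕ → ℕ → Bool) (b : ℕ → Bool) (K1 K2 M : ℕ) : ∀ (L : List ℕ) (a : ℕ → ℕ),
    go K1 K2 M (colsOf n c L) (pack n a) = true →
    leaf K1 K2 M (pack n (fun i => a i + (L.map (fun j => (c i j == b j).toNat)).sum)) = true := by
  intro L
  induction L with
  | nil => intro a h; simpa [colsOf, go] using h
  | cons j L ih =>
    intro a h
    have h' : go K1 K2 M (colsOf n c L) (pack n a + pack n (fun i => (c i j).toNat)) = true ∧
        go K1 K2 M (colsOf n c L) (pack n a + pack n (fun i => (!(c i j)).toNat)) = true := by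
      have h2 : (go K1 K2 M (colsOf n c L) (pack n a + pack n (fun i => (c i j).toNat)) &&
        go K1 K2 M (colsOf n c L) (pack n a + pack n (fun i => (!(c i j)).toNat))) = true := h
      rwa [Bool.and_eq_true] at h2
    have hkey : go K1 K2 M (colsOf n c L) (pack n (fun i => a i + (c i j == b j).toNat)) = true := by
      rw [pack_add]
      rcases hb : b j with _ | _
      · have : (fun i => ((c i j == false).toNat)) = fun i => (!(c i j)).toNat := by
          funext i; cases c i j <;> rfl
        rw [this]
        exact h'.2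
      · have : (fun i => ((c i j == true).toNat)) = fun i => (c i j).toNat := by
          funext i; cases c i j <;> rfl
        rw [this]
        exact h'.1
    have := ih _ hkey
    have hfun : (fun i => a i + (List.map (fun j => (c i j == b j).toNat) (j :: L)).sum) =
        fun i => a i + (c i j == b j).toNat + (List.map (fun j => (c i j == b j).toNat) L).sum := by
      funext i
      simp only [List.map_cons, List.sum_cons]
      ring
    rw [hfun]
    exact this

lemma sum_range_list (f : ℕ → ℕ) (n : ℕ) : ((List.range n).map f).sum = ∑ j : Fin n, f j := by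
  rw [← Finset.sum_range]
  induction n with
  | zero => simp
  | succ n ih =>
    rw [List.range_succ, List.map_append, List.sum_append, ih, Finset.sum_range_succ]
    simp

/-- main consequence: if the search succeeds, every Boolean vector agrees with some row in at least
`hi` or at most `lo` places -/
theorem search_spec (n hi lo : ℕ) (h1 : hi ≤ 32) (h2 : lo < 32) (hn : n + 32 - hi < 64)
    (hn' : n ≤ 32 + lo) (c : ℕ → ℕ → Bool)
    (h : go (pack n (fun _ => 32 - hi)) (pack n (fun _ => 32 + lo)) (pack n (fun _ => 32))
      (colsOf n c (List.range n)) 0 = true) (b : ℕ → Bool) :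
    ∃ i < n, hi ≤ ∑ j : Fin n, (c i j == b j).toNat ∨ ∑ j : Fin n, (c i j == b j).toNat ≤ lo := by
  have h0 : go (pack n (fun _ => 32 - hi)) (pack n (fun _ => 32 + lo)) (pack n (fun _ => 32))
      (colsOf n c (List.range n)) (pack n (fun _ => 0)) = true := by
    rw [pack_zero]; exact h
  have h3 := go_spec n c b _ _ _ (List.range n) (fun _ => 0) h0
  have h4 : (fun i => (fun _ : ℕ => 0) i + (List.map (fun j => (c i j == b j).toNat) (List.range n)).sum)
      = fun i => ∑ j : Fin n, (c i j == b j).toNat := by
    funext i
    rw [← sum_range_list (fun j => (c i j == b j).toNat) n]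
    simp
  rw [h4] at h3
  exact leaf_spec n hi lo h1 h2 _ (fun i => by
    calc ∑ j : Fin n, (c i j == b j).toNat ≤ ∑ _j : Fin n, 1 :=
          Finset.sum_le_sum (fun j _ => by cases (c i j == b j) <;> simp)
      _ = n := by simp) hn hn' h3

end Pool.Agent.H161R7.DiscCore
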