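import Pool.Agent.H161R7.DiscCore

set_option autoImplicit false

/-!
The table of a sign matrix of order 17 and the exhaustive search through its sign vectors.
-/

namespace Pool.Agent.H161R7.DiscSearch

open Pool.Agent.H161R7.DiscCore

/-- the rows of the matrix, as binary words: bit `j` of word `i` is set iff the entry is `1` -/
def rowWords : List ℕ := [31869, 1817, 41584, 30084, 21858, 4071, 21182, 31235, 44712, 55729, 197,
  63447, 10714, 54475, 41263, 56140, 35862]

/-- the entry `(i, j)` is `1` iff this is true -/
def bitM (i j : ℕ) : Bool := (rowWords.getD i 0).testBit j

/-- the packed columns -/
def litCols : List (ℕ × ℕ) := [(19645119526654321163763777, 80466107275916482281801519104),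
  (79247812354986538949972852736, 1237940040456597652992430145),
  (80485445441603449804476907521, 306953839686798488375360),
  (1257589806220882412329500737, 79228162589222254190635782144),
  (79228167310435811225256333377, 1257585085007325377708949504),
  (19342813132130010091491329, 80466409582311006592873791552),
  (1238247068046664602373591041, 79247505327396472000591691840),
  (307028779580269663617024, 80485445366663556333301665857),
  (1257287648570687905778106432, 79228464746872448697187176449),
  (1237940113072642512553775168, 79247812282370494090411507713),
  (79228464819506499021743325249, 1257287575936637581221957632),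
  (80466107275934501010694733825, 19645119508635592270549056),
  (1238242344545279092323516417, 79247510050897857510641766464),
  (19347609267579104302206977, 80466404786175557498663075904),
  (1238242344545279092323516417, 79247510050897857510641766464),
  (80485747671923727760856453120, 4723519408842108829761),
  (0, 80485752395443136602965282881)]

theorem cols_eq : colsOf 17 bitM (List.range 17) = litCols := by decide +kernel

theorem consts_eq : pack 17 (fun _ => 32 - 12) = 1609715047908862732059305657620 ∧
    pack 17 (fun _ => 32 + 5) = 2977972838631396054309715466597 ∧ pack 17 (fun _ => 32) = 2575544076654180371294889052192 := by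
  decide +kernel

theorem search : go 1609715047908862732059305657620 2977972838631396054309715466597 2575544076654180371294889052192 litCols 0 = true := by decide +kernel

theorem search17 (b : ℕ → Bool) :
    ∃ i < 17, 12 ≤ ∑ j : Fin 17, (bitM i j == b j).toNat ∨
      ∑ j : Fin 17, (bitM i j == b j).toNat ≤ 5 := by
  refine search_spec 17 12 5 (by norm_num) (by norm_num) (by norm_num) (by norm_num) bitM ?_ b
  rw [cols_eq, consts_eq.1, consts_eq.2.1, consts_eq.2.2]
  exact search

end Pool.Agent.H161R7.DiscSearch
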