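import Mathlib

set_option autoImplicit false

/-!
Shift graphs, their chromatic numbers, and colourings of their Cartesian sums.
-/

namespace Pool.Agent.H161R7.ShiftProd

open Finset

/-- the Cartesian sum of two graphs: `(x, x')` and `(y, y')` are adjacent iff `x y` is an edge of
`G` or `x' y'` is an edge of `H` -/
def cartSum {V W : Type} (G : SimpleGraph V) (H : SimpleGraph W) : SimpleGraph (V × W) where
  Adj p q := G.Adj p.1 q.1 ∨ H.Adj p.2 q.2
  symm := ⟨fun _ _ h => h.imp (fun h => h.symm) (fun h => h.symm)⟩
  loopless := ⟨fun _ h => h.elim (fun h => G.loopless.irrefl _ h) (fun h => H.loopless.irrefl _ h)⟩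

/-- the chromatic number of a finite graph as a natural number -/
noncomputable def chi {V : Type} (G : SimpleGraph V) : ℕ := G.chromaticNumber.toNat

lemma chi_le {V : Type} {G : SimpleGraph V} {m : ℕ} (h : G.Colorable m) : chi G ≤ m :=
  ENat.toNat_le_of_le_natCast h.chromaticNumber_le

lemma colorable_chi {V : Type} {G : SimpleGraph V} {m : ℕ} (h : G.Colorable m) :
    G.Colorable (chi G) := SimpleGraph.colorable_chromaticNumber h

/-- the vertices of the shift graph: the pairs `i < j` -/
abbrev SV (n : ℕ) : Type := {p : Fin n × Fin n // p.1 < p.2}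

/-- the shift graph: `(i, j)` is adjacent to `(j, k)` -/
def shift (n : ℕ) : SimpleGraph (SV n) where
  Adj p q := p.1.2 = q.1.1 ∨ q.1.2 = p.1.1
  symm := ⟨fun _ _ h => h.symm⟩
  loopless := ⟨fun p h => by
    rcases h with h | h <;> exact absurd h (ne_of_gt p.2)⟩

/-- lower bound for the chromatic number of the shift graph -/
lemma shift_lower {n m : ℕ} (h : (shift n).Colorable m) : n ≤ 2 ^ m := by
  classical
  obtain ⟨c⟩ := h
  -- the set of colours of the pairs ending in `j`
  let S : Fin n → Finset (Fin m) := fun j =>
    univ.filter (fun k => ∃ i, ∃ hij : i < j, c ⟨(i, j), hij⟩ = k)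
  have hinj : Function.Injective S := by
    intro i j hS
    by_contra hne
    rcases lt_or_gt_of_ne hne with hlt | hlt
    · have h1 : c ⟨(i, j), hlt⟩ ∈ S j := by
        simp only [S, mem_filter, mem_univ, true_and]
        exact ⟨i, hlt, rfl⟩
      rw [← hS] at h1
      simp only [S, mem_filter, mem_univ, true_and] at h1
      obtain ⟨h, hh, he⟩ := h1
      exact c.valid (v := ⟨(h, i), hh⟩) (w := ⟨(i, j), hlt⟩) (Or.inl rfl) he
    · have h1 : c ⟨(j, i), hlt⟩ ∈ S i := by
        simp only [S, mem_filter, mem_univ, true_and]
        exact ⟨j, hlt, rfl⟩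
      rw [hS] at h1
      simp only [S, mem_filter, mem_univ, true_and] at h1
      obtain ⟨h, hh, he⟩ := h1
      exact c.valid (v := ⟨(h, j), hh⟩) (w := ⟨(j, i), hlt⟩) (Or.inl rfl) he
  have := Fintype.card_le_of_injective S hinj
  simpa using this

/-- for `i < j < 2^k` some binary digit below `k` is `0` in `i` and `1` in `j` -/
lemma exists_digit {k i j : ℕ} (hij : i < j) (hj : j < 2 ^ k) :
    ∃ s < k, i.testBit s = false ∧ j.testBit s = true := by
  by_contra hcon
  push Not at hcon
  have hle : ∀ s, j.testBit s = true → i.testBit s = true := by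
    intro s hs
    by_cases hsk : s < k
    · by_contra h0
      exact hcon s hsk (by simpa using h0) hs
    · exfalso
      have := Nat.ge_two_pow_of_testBit hs
      have h2 : 2 ^ k ≤ 2 ^ s := Nat.pow_le_pow_right (by norm_num) (by omega)
      omega
  have hand : i &&& j = j := by
    apply Nat.eq_of_testBit_eq
    intro s
    rw [Nat.testBit_and]
    cases hs : j.testBit s
    · simp
    · simp [hle s hs]
  have := Nat.and_le_left (n := i) (m := j)
  omega

/-- upper bound for the chromatic number of the shift graph -/
lemma shift_upper (k : ℕ) : (shift (2 ^ k)).Colorable k := by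
  classical
  have hc : ∀ p : SV (2 ^ k), ∃ s : Fin k, (p.1.1 : ℕ).testBit s = false ∧
      (p.1.2 : ℕ).testBit s = true := by
    intro p
    obtain ⟨s, hs, h1, h2⟩ := exists_digit (k := k) (i := p.1.1) (j := p.1.2) p.2 p.1.2.isLt
    exact ⟨⟨s, hs⟩, h1, h2⟩
  choose f hf using hc
  refine ⟨SimpleGraph.Coloring.mk f ?_⟩
  intro p q hpq he
  rcases hpq with h | h
  · have h1 := (hf p).2
    have h2 := (hf q).1
    rw [he, h] at h1
    rw [h1] at h2
    exact absurd h2 (by decide)
  · have h1 := (hf q).2
    have h2 := (hf p).1
    rw [← he, h] at h1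
    rw [h1] at h2
    exact absurd h2 (by decide)

/-- the chromatic number of the shift graph on `2^k` points is `k` -/
lemma chi_shift (k : ℕ) : chi (shift (2 ^ k)) = k := by
  apply le_antisymm (chi_le (shift_upper k))
  have := shift_lower (colorable_chi (shift_upper k))
  exact (Nat.pow_le_pow_iff_right (by norm_num)).mp this

/-- functions with prescribed values at two points are a quarter of all -/
lemma card_two {n : ℕ} (i j : Fin n) (hij : i ≠ j) :
    4 * (univ.filter (fun f : Fin n → Bool => f i = true ∧ f j = false)).card =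
      Fintype.card (Fin n → Bool) := by
  classical
  let A := {f : Fin n → Bool // f i = true ∧ f j = false}
  have h1 : (univ.filter (fun f : Fin n → Bool => f i = true ∧ f j = false)).card =
      Fintype.card A := (Fintype.card_subtype _).symm
  have e : A × Bool × Bool ≃ (Fin n → Bool) :=
    { toFun := fun x => Function.update (Function.update x.1.1 i x.2.1) j x.2.2
      invFun := fun f => (⟨Function.update (Function.update f i true) j false, by
        rw [Function.update_of_ne hij]
        simp, by simp⟩, f i, f j)
      left_inv := by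
        rintro ⟨⟨f, hf1, hf2⟩, u, v⟩
        simp only [Prod.mk.injEq]
        refine ⟨?_, ?_, ?_⟩
        · apply Subtype.ext
          funext x
          by_cases hxj : x = j
          · subst hxj; simp [hf2]
          · by_cases hxi : x = i
            · subst hxi; simp [hxj, hf1]
            · simp [hxj, hxi]
        · rw [Function.update_of_ne hij]; simp
        · simp
      right_inv := by
        intro f
        funext x
        by_cases hxj : x = j
        · subst hxj; simp
        · by_cases hxi : x = i
          · subst hxi; simp [hxj]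
          · simp [hxj, hxi] }
  have h2 := Fintype.card_congr e
  rw [Fintype.card_prod, Fintype.card_prod, Fintype.card_bool] at h2
  rw [h1, ← h2]
  ring

/-- a pair of 2-colourings is good for a pair of vertices -/
def Good {N M : ℕ} (q : SV N × SV M) (p : (Fin N → Bool) × (Fin M → Bool)) : Prop :=
  (p.1 q.1.1.1 = true ∧ p.1 q.1.1.2 = false) ∧ (p.2 q.2.1.1 = true ∧ p.2 q.2.1.2 = false)

instance {N M : ℕ} (q : SV N × SV M) (p : (Fin N → Bool) × (Fin M → Bool)) :
    Decidable (Good q p) := by unfold Good; infer_instance

lemma card_good {N M : ℕ} (q : SV N × SV M) :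
    16 * (univ.filter (fun p => Good q p)).card =
      Fintype.card ((Fin N → Bool) × (Fin M → Bool)) := by
  classical
  have h1 := card_two q.1.1.1 q.1.1.2 (ne_of_lt q.1.2)
  have h2 := card_two q.2.1.1 q.2.1.2 (ne_of_lt q.2.2)
  have h3 : (univ.filter (fun p => Good q p)) =
      (univ.filter (fun f : Fin N → Bool => f q.1.1.1 = true ∧ f q.1.1.2 = false)) ×ˢ
      (univ.filter (fun f : Fin M → Bool => f q.2.1.1 = true ∧ f q.2.1.2 = false)) := by
    ext p
    rw [mem_filter, mem_product, mem_filter, mem_filter]
    simp only [mem_univ, true_and]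
    exact Iff.rfl
  rw [h3, card_product, Fintype.card_prod, ← h1, ← h2]
  ring

lemma card_bad {N M : ℕ} (q : SV N × SV M) :
    16 * (univ.filter (fun p => ¬ Good q p)).card =
      15 * Fintype.card ((Fin N → Bool) × (Fin M → Bool)) := by
  classical
  have h1 := card_good q
  have h2 := Finset.card_filter_add_card_filter_not (s := (univ :
    Finset ((Fin N → Bool) × (Fin M → Bool)))) (fun p => Good q p)
  rw [card_univ] at h2
  omega

/-- covering by few products of independent sets -/
lemma exists_cover {N M t : ℕ} (h : (N * N) * (M * M) * 15 ^ t < 16 ^ t) :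
    ∃ ω : Fin t → (Fin N → Bool) × (Fin M → Bool), ∀ q : SV N × SV M, ∃ s, Good q (ω s) := by
  classical
  by_contra hcon
  push Not at hcon
  set T := Fintype.card ((Fin N → Bool) × (Fin M → Bool)) with hT
  have hTpos : 0 < T := Fintype.card_pos
  have hcov : (univ : Finset (Fin t → (Fin N → Bool) × (Fin M → Bool))) ⊆
      univ.biUnion (fun q : SV N × SV M => Fintype.piFinset
        (fun _ : Fin t => univ.filter (fun p => ¬ Good q p))) := by
    intro ω _
    obtain ⟨q, hq⟩ := hcon ω
    rw [mem_biUnion]
    refine ⟨q, mem_univ _, ?_⟩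
    rw [Fintype.mem_piFinset]
    intro s
    simp only [mem_filter, mem_univ, true_and]
    exact hq s
  have h1 := (card_le_card hcov).trans card_biUnion_le
  rw [card_univ, Fintype.card_fun, Fintype.card_fin, ← hT] at h1
  have h2 : ∀ q : SV N × SV M, 16 ^ t * (Fintype.piFinset
        (fun _ : Fin t => univ.filter (fun p => ¬ Good q p))).card = 15 ^ t * T ^ t := by
    intro q
    rw [Fintype.card_piFinset]
    simp only [prod_const, card_univ, Fintype.card_fin]
    rw [← mul_pow, card_bad q, ← hT, mul_pow]
  have h3 : 16 ^ t * T ^ t ≤ (N * N) * (M * M) * (15 ^ t * T ^ t) := by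
    calc 16 ^ t * T ^ t ≤ 16 ^ t * ∑ q : SV N × SV M, (Fintype.piFinset
        (fun _ : Fin t => univ.filter (fun p => ¬ Good q p))).card := Nat.mul_le_mul_left _ h1
      _ = ∑ q : SV N × SV M, 15 ^ t * T ^ t := by
          rw [mul_sum]
          exact sum_congr rfl (fun q _ => h2 q)
      _ = Fintype.card (SV N × SV M) * (15 ^ t * T ^ t) := by
          rw [sum_const, card_univ, smul_eq_mul]
      _ ≤ (N * N) * (M * M) * (15 ^ t * T ^ t) := by
          apply Nat.mul_le_mul_right
          rw [Fintype.card_prod]
          apply Nat.mul_le_mul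
          · have := Fintype.card_subtype_le (fun p : Fin N × Fin N => p.1 < p.2)
            simpa using this
          · have := Fintype.card_subtype_le (fun p : Fin M × Fin M => p.1 < p.2)
            simpa using this
  have h4 : 16 ^ t * T ^ t ≤ ((N * N) * (M * M) * 15 ^ t) * T ^ t := by
    calc 16 ^ t * T ^ t ≤ (N * N) * (M * M) * (15 ^ t * T ^ t) := h3
      _ = _ := by ring
  have h5 := Nat.le_of_mul_le_mul_right h4 (pow_pos hTpos t)
  omega

lemma cartSum_shift_colorable {N M t : ℕ} (h : (N * N) * (M * M) * 15 ^ t < 16 ^ t) :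
    (cartSum (shift N) (shift M)).Colorable t := by
  classical
  obtain ⟨ω, hω⟩ := exists_cover h
  choose f hf using hω
  refine ⟨SimpleGraph.Coloring.mk f ?_⟩
  intro p q hpq he
  have hp := hf p
  have hq := hf q
  rw [he] at hp
  rcases hpq with h | h
  · rcases h with h | h
    · have h1 := hp.1.2
      rw [h, hq.1.1] at h1
      exact absurd h1 (by decide)
    · have h1 := hq.1.2
      rw [h, hp.1.1] at h1
      exact absurd h1 (by decide)
  · rcases h with h | h
    · have h1 := hp.2.2
      rw [h, hq.2.1] at h1
      exact absurd h1 (by decide)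
    · have h1 := hq.2.2
      rw [h, hp.2.1] at h1
      exact absurd h1 (by decide)

/-- the Cartesian sum of the shift graphs with chromatic numbers `a` and `b` -/
lemma cartSum_shift (a b : ℕ) (ha : 1 ≤ a) :
    (cartSum (shift (2 ^ a)) (shift (2 ^ b))).Colorable (22 * (a + b)) := by
  apply cartSum_shift_colorable
  have h1 : (4 * 15 ^ 22 : ℕ) ^ (a + b) < (16 ^ 22) ^ (a + b) :=
    Nat.pow_lt_pow_left (by norm_num) (by omega)
  calc 2 ^ a * 2 ^ a * (2 ^ b * 2 ^ b) * 15 ^ (22 * (a + b))
      = (4 * 15 ^ 22) ^ (a + b) := by
        rw [mul_pow, ← pow_mul, show (4 : ℕ) = 2 * 2 by norm_num, mul_pow, pow_add]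
        ring
    _ < (16 ^ 22) ^ (a + b) := h1
    _ = 16 ^ (22 * (a + b)) := by rw [← pow_mul]

end Pool.Agent.H161R7.ShiftProd
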